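import Pool.Agent.H46.CH.DU
import Pool.Agent.H8.CH.AU

/-!
# Row AUT: trees of vectors with recognised relations are in `LCF`
-/

set_option autoImplicit false

namespace Pool.Agent.H72.CHD

open Classical Pool.Agent.H8.VR Pool.Agent.H69.VR Pool.Agent.H46.CH
open Pool.Agent.H8.JS (NTM Cfg Mv lang num)
open Pool.Agent.H8.CH (vec vec_lt vec_surj auA sw_iff)

theorem pf_AUT (hC : T_SWC) (hD : T_SWD) : Pool.Agent.H46.CH.T_AUT := by
  intro S ι κ E _ _ _ _ src tgt br s₀ s₁ P d hP hbr hsmall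
  choose M hM using hP
  have h1 : ∀ (x : List Bool) (s : (auA src tgt s₀ M s₁).S) (w : ℕ → (auA src tgt s₀ M s₁).Λ)
      (k : ℕ), (auA src tgt s₀ M s₁).Tree br x s w k →
      AuT (S := S) (ι := ι) src tgt br s₁ P (2 ^ (x.length + 1)) (num x) s (vec x.length w) k := by
    intro x s w k h
    induction h with
    | fin w => exact AuT.fin _
    | sw s w s' w' k h h' ht ih =>
      obtain ⟨e, rfl, rfl, u, hu⟩ := (sw_iff src tgt s₀ M s₁ P hM x s s' w w').1 h'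
      exact AuT.st e _ (vec x.length u) _ k h (vec_lt x.length u) (vec_lt x.length w') hu ih
    | all s a b w k₁ k₂ h _ _ ih₁ ih₂ => exact AuT.all s a b _ k₁ k₂ h ih₁ ih₂
  have h2 : ∀ (x : List Bool) (s : S) (v : ι → ℕ) (k : ℕ),
      AuT src tgt br s₁ P (2 ^ (x.length + 1)) (num x) s v k →
      ∀ w, vec x.length w = v → (auA src tgt s₀ M s₁).Tree br x s w k := by
    intro x s v k h
    induction h with
    | fin v => exact fun w _ => SWS.Tree.fin (A := auA src tgt s₀ M s₁) (br := br) (x := x) w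
    | st e v u v' k hb hu hv hP _ ih =>
      intro w hw
      obtain ⟨w', hw'⟩ := vec_surj x.length v' hv
      obtain ⟨u', hu'⟩ := vec_surj x.length u hu
      refine SWS.Tree.sw (A := auA src tgt s₀ M s₁) (br := br) (x := x) (src e) w (tgt e) w' k hb
        ?_ (ih w' hw')
      refine (sw_iff src tgt s₀ M s₁ P hM x (src e) (tgt e) w w').2 ⟨e, rfl, rfl, u', ?_⟩
      rw [hw, hu', hw']
      exact hP
    | all s a b v k₁ k₂ hb _ _ ih₁ ih₂ =>
      intro w hw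
      exact SWS.Tree.all (A := auA src tgt s₀ M s₁) (br := br) (x := x) s a b w k₁ k₂ hb
        (ih₁ w hw) (ih₂ w hw)
  have h3 : ∀ n : ℕ, 4 * (n + 2) * 2 ^ (d * (n + 1)) ≤ 2 ^ ((d + 3) * (n + 1)) := by
    intro n
    have e1 : n + 2 ≤ 2 ^ (n + 1) := by
      have := Nat.lt_two_pow_self (n := n + 1)
      omega
    have e2 : 4 * (n + 2) ≤ 2 ^ (3 * (n + 1)) := by
      calc 4 * (n + 2) ≤ 2 ^ 2 * 2 ^ (n + 1) := by omega
        _ = 2 ^ (2 + (n + 1)) := (pow_add _ _ _).symm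
        _ ≤ 2 ^ (3 * (n + 1)) := Nat.pow_le_pow_right (by norm_num) (by omega)
    calc 4 * (n + 2) * 2 ^ (d * (n + 1)) ≤ 2 ^ (3 * (n + 1)) * 2 ^ (d * (n + 1)) :=
          Nat.mul_le_mul_right _ e2
      _ = 2 ^ (3 * (n + 1) + d * (n + 1)) := (pow_add _ _ _).symm
      _ = 2 ^ ((d + 3) * (n + 1)) := by congr 1; ring
  have h4 : ∀ (x : List Bool) (v : ι → ℕ) (k : ℕ), (∀ i, v i < 2 ^ (x.length + 1)) →
      AuT src tgt br s₁ P (2 ^ (x.length + 1)) (num x) s₀ v k →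
      ∃ k' ≤ 4 * (x.length + 2) * k, ATr (swM (auA src tgt s₀ M s₁))
        (swB (auA src tgt s₀ M s₁) br)
        (Pool.Agent.H8.JS.init (swM (auA src tgt s₀ M s₁)) x) k' := by
    intro x v k hv h
    obtain ⟨w, hw⟩ := vec_surj x.length v hv
    exact hD (auA src tgt s₀ M s₁) br x w k hbr (h2 x s₀ v k h w hw)
  refine ⟨d + 3, swM (auA src tgt s₀ M s₁), swB (auA src tgt s₀ M s₁) br,
    fun x => ⟨?_, ?_, ?_⟩⟩
  · intro c hc j
    refine lt_of_lt_of_le ((hC (auA src tgt s₀ M s₁) br x hbr).1 c hc j) ?_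
    show x.length + 1 ≤ (d + 3) * (x.length + 1)
    nlinarith
  · constructor
    · rintro ⟨v, k, hv, h⟩
      obtain ⟨k', _, h'⟩ := h4 x v k hv h
      exact ⟨k', h'⟩
    · rintro ⟨z, hz⟩
      obtain ⟨w, k', hw⟩ := (hC (auA src tgt s₀ M s₁) br x hbr).2 z hz
      exact ⟨vec x.length w, k', vec_lt x.length w, h1 x s₀ w k' hw⟩
  · rintro ⟨v, k, hv, h⟩
    obtain ⟨v', hv', k', hk', h'⟩ := hsmall x v k hv h
    obtain ⟨k'', hk'', h''⟩ := h4 x v' k' hv' h'
    refine ⟨k'', ?_, h''⟩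
    calc k'' ≤ 4 * (x.length + 2) * k' := hk''
      _ ≤ 4 * (x.length + 2) * 2 ^ (d * (x.length + 1)) := Nat.mul_le_mul_left _ hk'
      _ ≤ _ := h3 x.length

end Pool.Agent.H72.CHD
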